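import Mathlib
import Pool.Agent.Helper149.Hardy
import Pool.Agent.Helper149.Fatou
import Pool.Agent.Results.MP_369429_mp.SmallCharge

set_option autoImplicit false

open MeasureTheory Filter Topology Set
open scoped ENNReal NNReal ContDiff

namespace Pool.Agent.H7R3.TfdwA

open Pool.Agent.Results.MP_369429_mp.SmallCharge (R3 Admissible)
open Pool.Agent

/-- the regularised distance -/
noncomputable def rr (a : R3) (δ : ℝ) (x : R3) : ℝ := √(‖x - a‖ ^ 2 + δ ^ 2)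

lemma rr_pos (a : R3) {δ : ℝ} (hδ : 0 < δ) (x : R3) : 0 < rr a δ x :=
  Real.sqrt_pos.mpr (by positivity)

lemma rr_ge (a : R3) {δ : ℝ} (hδ : 0 < δ) (x : R3) : δ ≤ rr a δ x := by
  apply Real.le_sqrt_of_sq_le; nlinarith [sq_nonneg ‖x - a‖]

lemma rr_sq (a : R3) (δ : ℝ) (x : R3) : rr a δ x ^ 2 = ‖x - a‖ ^ 2 + δ ^ 2 :=
  Real.sq_sqrt (by positivity)

lemma rr_contDiff (a : R3) {δ : ℝ} (hδ : 0 < δ) : ContDiff ℝ 1 (rr a δ) := by
  have h1 : ContDiff ℝ 1 (fun x : R3 => ‖x - a‖ ^ 2 + δ ^ 2) :=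
    ((contDiff_id.sub contDiff_const).norm_sq ℝ).add contDiff_const
  exact h1.sqrt fun x => by positivity

lemma rr_lip (a : R3) {δ : ℝ} (hδ : 0 < δ) : LipschitzWith 1 (rr a δ) := by
  refine LipschitzWith.of_dist_le_mul fun x y => ?_
  rw [NNReal.coe_one, one_mul, Real.dist_eq, dist_eq_norm]
  have key : ∀ x y : R3, rr a δ x ≤ rr a δ y + ‖x - y‖ := by
    intro x y
    have h1 : ‖x - a‖ ≤ ‖y - a‖ + ‖x - y‖ := by
      have : x - a = (y - a) + (x - y) := by abel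
      rw [this]; exact norm_add_le _ _
    have h2 : ‖y - a‖ ≤ rr a δ y := by
      apply Real.le_sqrt_of_sq_le; nlinarith
    refine Real.sqrt_le_iff.mpr ⟨by have := rr_pos a hδ y; positivity, ?_⟩
    have h3 := rr_sq a δ y
    have h4 : ‖x - a‖ ^ 2 ≤ (‖y - a‖ + ‖x - y‖) ^ 2 := by gcongr
    nlinarith [norm_nonneg (x - y), mul_le_mul_of_nonneg_right h2 (norm_nonneg (x - y))]
  rw [abs_le]
  constructor
  · have := key y x
    rw [norm_sub_rev] at this
    linarith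
  · have := key x y
    linarith

lemma rr_fderiv (a : R3) {δ : ℝ} (hδ : 0 < δ) (x : R3) : ‖fderiv ℝ (rr a δ) x‖ ≤ 1 := by
  simpa using norm_fderiv_le_of_lipschitz ℝ (rr_lip a hδ) (x₀ := x)

/-- The classical Hardy inequality, regularised, for smooth functions. -/
lemma hardy2_smooth (w : R3 → ℝ) (hw : ContDiff ℝ 1 w) (hw0 : ∀ x, 0 ≤ w x)
    (h2 : Integrable (fun x => w x ^ 2)) (hg : Integrable (fun x => ‖fderiv ℝ w x‖ ^ 2))
    (a : R3) {δ : ℝ} (hδ : 0 < δ) :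
    Integrable (fun x => w x ^ 2 / (‖x - a‖ ^ 2 + δ ^ 2)) ∧
    ∫ x, w x ^ 2 / (‖x - a‖ ^ 2 + δ ^ 2) ≤ 4 * ∫ x, ‖fderiv ℝ w x‖ ^ 2 := by
  have hr := rr_contDiff a hδ
  have hrc : Continuous (rr a δ) := hr.continuous
  have hrpos := rr_pos a hδ
  have hrge := rr_ge a hδ
  have hwc := hw.continuous
  have hwd : Differentiable ℝ w := hw.differentiable (by simp)
  have hrd : Differentiable ℝ (rr a δ) := hr.differentiable (by simp)
  have hI1 : Integrable (fun x => w x ^ 2 / rr a δ x ^ 2) := by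
    refine (h2.const_mul (1 / δ ^ 2)).mono' ?_ (ae_of_all _ fun x => ?_)
    · exact ((hwc.pow 2).div (hrc.pow 2) fun x => (pow_pos (hrpos x) 2).ne').aestronglyMeasurable
    · rw [Real.norm_of_nonneg (by positivity), div_eq_mul_one_div, mul_comm]
      have : 1 / rr a δ x ^ 2 ≤ 1 / δ ^ 2 := by
        have := hrge x
        gcongr
      exact mul_le_mul_of_nonneg_right this (by positivity)
  let F : R3 → ℝ := fun x => w x ^ 2 * (rr a δ x)⁻¹
  have hF : ContDiff ℝ 1 F := (hw.pow 2).mul (hr.inv fun x => (hrpos x).ne')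
  have hF0 : ∀ x, 0 ≤ F x := fun x => by have := hrpos x; positivity
  have hFint : Integrable F := by
    refine (h2.const_mul (1 / δ)).mono' hF.continuous.aestronglyMeasurable
      (ae_of_all _ fun x => ?_)
    rw [Real.norm_of_nonneg (hF0 x)]
    have : (rr a δ x)⁻¹ ≤ 1 / δ := by
      rw [← one_div]
      have := hrge x
      gcongr
    calc w x ^ 2 * (rr a δ x)⁻¹ ≤ w x ^ 2 * (1 / δ) :=
          mul_le_mul_of_nonneg_left this (by positivity)
      _ = _ := by ring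
  have hFd : ∀ x, ‖fderiv ℝ F x‖ ≤ 2 * (w x / rr a δ x * ‖fderiv ℝ w x‖)
      + w x ^ 2 / rr a δ x ^ 2 := by
    intro x
    have hrx := hrpos x
    have e1 : HasFDerivAt F (w x ^ 2 • (-(rr a δ x ^ 2)⁻¹ • fderiv ℝ (rr a δ) x)
        + (rr a δ x)⁻¹ • ((2 * w x ^ (2 - 1)) • fderiv ℝ w x)) x := by
      have h1 := ((hwd x).hasFDerivAt).pow 2
      have h2 := (hasDerivAt_inv hrx.ne').comp_hasFDerivAt x (hrd x).hasFDerivAt
      have h3 := h1.mul h2
      refine h3.congr_fderiv ?_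
      simp
    rw [e1.fderiv]
    refine (norm_add_le _ _).trans ?_
    rw [norm_smul, norm_smul, norm_smul, norm_smul, norm_neg]
    have h4 := rr_fderiv a hδ x
    rw [Real.norm_of_nonneg (by positivity : 0 ≤ w x ^ 2),
      Real.norm_of_nonneg (by positivity : 0 ≤ (rr a δ x ^ 2)⁻¹),
      Real.norm_of_nonneg (by positivity : 0 ≤ (rr a δ x)⁻¹)]
    have hwx := hw0 x
    rw [Real.norm_of_nonneg (by simp; positivity)]
    have h5 : w x ^ 2 * ((rr a δ x ^ 2)⁻¹ * ‖fderiv ℝ (rr a δ) x‖) ≤ w x ^ 2 / rr a δ x ^ 2 := by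
      rw [div_eq_mul_inv]
      refine mul_le_mul_of_nonneg_left ?_ (by positivity)
      exact mul_le_of_le_one_right (by positivity) h4
    have h6 : (rr a δ x)⁻¹ * (2 * w x ^ (2 - 1) * ‖fderiv ℝ w x‖)
        = 2 * (w x / rr a δ x * ‖fderiv ℝ w x‖) := by
      simp
      field_simp
    rw [h6]
    linarith
  have hgc : Continuous fun x => ‖fderiv ℝ w x‖ := (hw.continuous_fderiv (by simp)).norm
  have hI2 : Integrable (fun x => w x / rr a δ x * ‖fderiv ℝ w x‖) := by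
    refine (hI1.add hg).mono' ?_ (ae_of_all _ fun x => ?_)
    · exact ((hwc.div hrc fun x => (hrpos x).ne').mul hgc).aestronglyMeasurable
    · have hrx := hrpos x
      have hwx := hw0 x
      rw [Real.norm_of_nonneg (by positivity)]
      have : w x ^ 2 / rr a δ x ^ 2 = (w x / rr a δ x) ^ 2 := by rw [div_pow]
      show _ ≤ w x ^ 2 / rr a δ x ^ 2 + ‖fderiv ℝ w x‖ ^ 2
      rw [this]
      nlinarith [sq_nonneg (w x / rr a δ x - ‖fderiv ℝ w x‖),
        sq_nonneg (w x / rr a δ x), sq_nonneg (‖fderiv ℝ w x‖)]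
  have hFint' : Integrable (fun x => ‖fderiv ℝ F x‖) := by
    refine ((hI2.const_mul 2).add hI1).mono' ?_ (ae_of_all _ fun x => ?_)
    · exact (hF.continuous_fderiv (by simp)).norm.aestronglyMeasurable
    · rw [Real.norm_of_nonneg (norm_nonneg _)]; exact hFd x
  have hH := Helper149.Hardy.hardyL1 F hF hF0 hFint hFint' a δ hδ
  have e2 : ∫ x, 2 * F x / √(‖x - a‖ ^ 2 + δ ^ 2) = 2 * ∫ x, w x ^ 2 / rr a δ x ^ 2 := by
    rw [← integral_const_mul]
    refine integral_congr_ae (ae_of_all _ fun x => ?_)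
    have hrx := hrpos x
    show 2 * (w x ^ 2 * (rr a δ x)⁻¹) / rr a δ x = 2 * (w x ^ 2 / rr a δ x ^ 2)
    field_simp
  rw [e2] at hH
  have h7 : ∫ x, ‖fderiv ℝ F x‖ ≤ 2 * (∫ x, w x / rr a δ x * ‖fderiv ℝ w x‖)
      + ∫ x, w x ^ 2 / rr a δ x ^ 2 := by
    rw [← integral_const_mul, ← integral_add (hI2.const_mul 2) hI1]
    exact integral_mono hFint' ((hI2.const_mul 2).add hI1) hFd
  have h8 : 2 * (∫ x, w x / rr a δ x * ‖fderiv ℝ w x‖)
      ≤ 1 / 2 * (∫ x, w x ^ 2 / rr a δ x ^ 2) + 2 * ∫ x, ‖fderiv ℝ w x‖ ^ 2 := by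
    rw [← integral_const_mul, ← integral_const_mul, ← integral_const_mul,
      ← integral_add (hI1.const_mul _) (hg.const_mul _)]
    refine integral_mono (hI2.const_mul 2) ((hI1.const_mul _).add (hg.const_mul _)) fun x => ?_
    have : w x ^ 2 / rr a δ x ^ 2 = (w x / rr a δ x) ^ 2 := by rw [div_pow]
    show 2 * (w x / rr a δ x * ‖fderiv ℝ w x‖)
      ≤ 1 / 2 * (w x ^ 2 / rr a δ x ^ 2) + 2 * ‖fderiv ℝ w x‖ ^ 2
    rw [this]
    nlinarith [sq_nonneg (w x / rr a δ x - 2 * ‖fderiv ℝ w x‖)]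
  have e3 : ∀ x, w x ^ 2 / (‖x - a‖ ^ 2 + δ ^ 2) = w x ^ 2 / rr a δ x ^ 2 := fun x => by
    rw [rr_sq]
  simp only [e3]
  exact ⟨hI1, by linarith⟩

/-- Hardy's inequality for admissible densities. -/
lemma hardy2 {p : ℝ} (hp : 4 / 3 < p) {ρ : R3 → ℝ} {g : R3 → R3} (h : Admissible p ρ g)
    (a : R3) :
    Integrable (fun x => ρ x / ‖x - a‖ ^ 2) ∧
    ∫ x, ρ x / ‖x - a‖ ^ 2 ≤ 4 * ∫ x, ‖g x‖ ^ 2 := by
  obtain ⟨hg2, -, w, hws, hw0, hwlim, hw2, -, -, hwgrad⟩ :=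
    Pool.Agent.Results.MP_369429_mp.SmallCharge.approx hp h
  let δ : ℕ → ℝ := fun n => 1 / ((n:ℝ) + 1)
  have hδ : ∀ n, 0 < δ n := fun n => by positivity
  have hδlim : Tendsto δ atTop (𝓝 0) := tendsto_one_div_add_atTop_nhds_zero_nat
  have hs := fun n => hardy2_smooth (w n) ((hws n).of_le (by simp)) (hw0 n) (hw2 n).1
    (hwgrad n).1 a (hδ n)
  refine Helper149.Fatou.fatou_real (μ := (volume : Measure R3))
    (fun n x => w n x ^ 2 / (‖x - a‖ ^ 2 + δ n ^ 2)) (fun x => ρ x / ‖x - a‖ ^ 2)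
    (4 * ∫ x, ‖g x‖ ^ 2) (fun n x => by positivity) (fun n => (hs n).1) (fun n => ?_) ?_
  · exact (hs n).2.trans (mul_le_mul_of_nonneg_left (hwgrad n).2 (by norm_num))
  · have hne : ∀ᵐ x : R3, x ≠ a := by
      rw [ae_iff]
      simp
    filter_upwards [hwlim, hne] with x hx hxa
    have hxa' : 0 < ‖x - a‖ := norm_pos_iff.mpr (sub_ne_zero.mpr hxa)
    have h3 : Tendsto (fun n => ‖x - a‖ ^ 2 + δ n ^ 2) atTop (𝓝 (‖x - a‖ ^ 2)) := by
      simpa using (hδlim.pow 2).const_add (‖x - a‖ ^ 2)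
    exact hx.div h3 (pow_pos hxa' 2).ne'

end Pool.Agent.H7R3.TfdwA
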