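import Mathlib
import Pool.Agent.H7R3.TfdwA

set_option autoImplicit false

open MeasureTheory Filter Topology Set
open scoped ENNReal NNReal ContDiff

namespace Pool.Agent.H7R3.TfdwB

open Pool.Agent.Results.MP_369429_mp.SmallCharge (R3 Admissible)
open Pool.Agent

lemma diag_null : ∀ᵐ z : R3 × R3 ∂((volume : Measure R3).prod volume), z.1 ≠ z.2 := by
  rw [ae_iff]
  simp only [not_not]
  have hm : MeasurableSet {z : R3 × R3 | z.1 = z.2} :=
    (isClosed_eq continuous_fst continuous_snd).measurableSet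
  rw [Measure.measure_prod_null hm]
  refine ae_of_all _ fun x => ?_
  have : Prod.mk x ⁻¹' {z : R3 × R3 | z.1 = z.2} = {x} := by
    ext y; simp [eq_comm]
  show volume _ = _
  rw [this]; simp

lemma int_exp_le {T s : ℝ} (hT : 0 < T) (hs : 0 < s) :
    ∫ t in Ioc (0:ℝ) T, Real.exp (-(t * s)) ≤ 1 / s := by
  have h1 : ∫ t in Ioc (0:ℝ) T, Real.exp (-(t * s)) = ∫ t in (0:ℝ)..T, Real.exp (-(t * s)) := by
    rw [intervalIntegral.integral_of_le hT.le]
  have h2 : ∫ t in (0:ℝ)..T, Real.exp (-(t * s)) = (1 - Real.exp (-(T * s))) / s := by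
    have hd : ∀ t ∈ Set.uIcc (0:ℝ) T, HasDerivAt (fun t => -Real.exp (-(t * s)) / s)
        (Real.exp (-(t * s))) t := by
      intro t _
      have h3 : HasDerivAt (fun t : ℝ => -(t * s)) (-(1 * s)) t :=
        ((hasDerivAt_id t).mul_const s).neg
      have h4 := (h3.exp.neg).div_const s
      refine h4.congr_deriv ?_
      field_simp
    rw [intervalIntegral.integral_eq_sub_of_hasDerivAt hd
      (Continuous.intervalIntegrable (by fun_prop) _ _)]
    simp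
    ring
  rw [h1, h2]
  have := Real.exp_pos (-(T * s))
  gcongr
  linarith

lemma int_exp_ge {T s : ℝ} (hT : 0 < T) (hs : 0 < s) :
    1 / s - 1 / (T * s ^ 2) ≤ ∫ t in Ioc (0:ℝ) T, Real.exp (-(t * s)) := by
  have h1 : ∫ t in Ioc (0:ℝ) T, Real.exp (-(t * s)) = ∫ t in (0:ℝ)..T, Real.exp (-(t * s)) := by
    rw [intervalIntegral.integral_of_le hT.le]
  have h2 : ∫ t in (0:ℝ)..T, Real.exp (-(t * s)) = (1 - Real.exp (-(T * s))) / s := by
    have hd : ∀ t ∈ Set.uIcc (0:ℝ) T, HasDerivAt (fun t => -Real.exp (-(t * s)) / s)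
        (Real.exp (-(t * s))) t := by
      intro t _
      have h3 : HasDerivAt (fun t : ℝ => -(t * s)) (-(1 * s)) t :=
        ((hasDerivAt_id t).mul_const s).neg
      have h4 := (h3.exp.neg).div_const s
      refine h4.congr_deriv ?_
      field_simp
    rw [intervalIntegral.integral_eq_sub_of_hasDerivAt hd
      (Continuous.intervalIntegrable (by fun_prop) _ _)]
    simp
    ring
  rw [h1, h2]
  have hTs : 0 < T * s := by positivity
  have h3 : Real.exp (-(T * s)) ≤ 1 / (T * s) := by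
    rw [Real.exp_neg, ← one_div]
    have : T * s ≤ Real.exp (T * s) := by linarith [Real.add_one_le_exp (T * s)]
    gcongr
  have h4 : Real.exp (-(T * s)) / s ≤ 1 / (T * s) / s := by gcongr
  have h5 : 1 / (T * s) / s = 1 / (T * s ^ 2) := by field_simp
  rw [sub_div]
  linarith

/-- The part of the nuclear attraction controlled by the electron repulsion. -/
lemma far {ρ : R3 → ℝ} (h0 : ∀ x, 0 ≤ ρ x) (hi : Integrable ρ)
    (hH : Integrable (fun z : R3 × R3 => ρ z.1 * ρ z.2 / ‖z.1 - z.2‖)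
      ((volume : Measure R3).prod volume))
    (a : R3) {T Z : ℝ} (hT : 0 < T) (_hZ : 0 ≤ Z) :
    Integrable (fun x => ρ x * ∫ t in Ioc (0:ℝ) T, Real.exp (-(t * ‖x - a‖))) ∧
    Z * ∫ x, ρ x * (∫ t in Ioc (0:ℝ) T, Real.exp (-(t * ‖x - a‖)))
      ≤ 1 / 2 * (∫ x, ∫ y, ρ x * ρ y / ‖x - y‖) + Z ^ 2 * T / 2 := by
  set ν : Measure ℝ := volume.restrict (Ioc (0:ℝ) T) with hν
  set μ : Measure R3 := volume with hμ
  have : IsFiniteMeasure ν := by rw [hν]; infer_instance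
  have hνT : ν.real univ = T := by
    simp [hν, Measure.real, hT.le]
  -- the basic integrable functions
  have hpos : ∀ᵐ t ∂ν, 0 < t := by
    rw [hν]
    filter_upwards [ae_restrict_mem measurableSet_Ioc] with t ht using ht.1
  have hexp_le : ∀ t s : ℝ, 0 < t → 0 ≤ s → Real.exp (-(t * s)) ≤ 1 := by
    intro t s ht hs
    rw [Real.exp_le_one_iff]
    have := mul_nonneg ht.le hs
    linarith
  have hF1 : Integrable (fun q : R3 × ℝ => ρ q.1 * Real.exp (-(q.2 * ‖q.1 - a‖))) (μ.prod ν) := by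
    have hb : Integrable (fun q : R3 × ℝ => ρ q.1 * (1:ℝ)) (μ.prod ν) :=
      hi.mul_prod (integrable_const (1:ℝ))
    refine hb.mono ?_ ?_
    · exact hb.aestronglyMeasurable.congr (ae_of_all _ fun q => mul_one _) |>.mul
        (Continuous.aestronglyMeasurable (by fun_prop))
    · have : ∀ᵐ q : R3 × ℝ ∂(μ.prod ν), 0 < q.2 := by
        exact Measure.quasiMeasurePreserving_snd.ae hpos
      filter_upwards [this] with q hq
      rw [norm_mul, norm_mul]
      refine mul_le_mul_of_nonneg_left ?_ (norm_nonneg _)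
      rw [Real.norm_of_nonneg (Real.exp_pos _).le, norm_one]
      exact hexp_le _ _ hq (norm_nonneg _)
  let M : ℝ → ℝ := fun t => ∫ x, ρ x * Real.exp (-(t * ‖x - a‖)) ∂μ
  have hMint : Integrable M ν := hF1.integral_prod_right
  have hI1 : Integrable (fun x => ρ x * ∫ t, Real.exp (-(t * ‖x - a‖)) ∂ν) μ := by
    have := hF1.integral_prod_left
    refine this.congr (ae_of_all _ fun x => ?_)
    show ∫ t, ρ x * Real.exp (-(t * ‖x - a‖)) ∂ν = _
    rw [integral_const_mul]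
  have hM1 : ∫ x, ρ x * (∫ t, Real.exp (-(t * ‖x - a‖)) ∂ν) ∂μ = ∫ t, M t ∂ν := by
    have := integral_integral_swap (f := fun (x : R3) (t : ℝ) =>
      ρ x * Real.exp (-(t * ‖x - a‖))) (μ := μ) (ν := ν) hF1
    rw [← this]
    refine integral_congr_ae (ae_of_all _ fun x => ?_)
    show _ = ∫ t, ρ x * Real.exp (-(t * ‖x - a‖)) ∂ν
    rw [integral_const_mul]
  -- second moment
  have hρρ : Integrable (fun z : R3 × R3 => ρ z.1 * ρ z.2) (μ.prod μ) := hi.mul_prod hi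
  have hF2 : Integrable (fun q : (R3 × R3) × ℝ =>
      (ρ q.1.1 * ρ q.1.2) * Real.exp (-(q.2 * (‖q.1.1 - a‖ + ‖q.1.2 - a‖))))
      ((μ.prod μ).prod ν) := by
    have hb : Integrable (fun q : (R3 × R3) × ℝ => (ρ q.1.1 * ρ q.1.2) * (1:ℝ))
      ((μ.prod μ).prod ν) := hρρ.mul_prod (integrable_const (1:ℝ))
    refine hb.mono ?_ ?_
    · exact hb.aestronglyMeasurable.congr (ae_of_all _ fun q => mul_one _) |>.mul
        (Continuous.aestronglyMeasurable (by fun_prop))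
    · have : ∀ᵐ q : (R3 × R3) × ℝ ∂((μ.prod μ).prod ν), 0 < q.2 :=
        Measure.quasiMeasurePreserving_snd.ae hpos
      filter_upwards [this] with q hq
      rw [norm_mul (ρ q.1.1 * ρ q.1.2), norm_mul (ρ q.1.1 * ρ q.1.2) (1:ℝ)]
      refine mul_le_mul_of_nonneg_left ?_ (norm_nonneg _)
      rw [Real.norm_of_nonneg (Real.exp_pos _).le, norm_one]
      exact hexp_le q.2 (‖q.1.1 - a‖ + ‖q.1.2 - a‖) hq (by positivity)
  have hMsq : ∀ t, M t ^ 2 = ∫ z : R3 × R3, (ρ z.1 * ρ z.2) *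
      Real.exp (-(t * (‖z.1 - a‖ + ‖z.2 - a‖))) ∂(μ.prod μ) := by
    intro t
    have h1 := integral_prod_mul (μ := μ) (ν := μ)
      (fun x : R3 => ρ x * Real.exp (-(t * ‖x - a‖))) (fun x : R3 => ρ x * Real.exp (-(t * ‖x - a‖)))
    rw [sq]
    show (∫ x, ρ x * Real.exp (-(t * ‖x - a‖)) ∂μ) * (∫ x, ρ x * Real.exp (-(t * ‖x - a‖)) ∂μ) = _
    rw [← h1]
    refine integral_congr_ae (ae_of_all _ fun z => ?_)
    show ρ z.1 * Real.exp (-(t * ‖z.1 - a‖)) * (ρ z.2 * Real.exp (-(t * ‖z.2 - a‖))) = _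
    have : Real.exp (-(t * (‖z.1 - a‖ + ‖z.2 - a‖)))
        = Real.exp (-(t * ‖z.1 - a‖)) * Real.exp (-(t * ‖z.2 - a‖)) := by
      rw [← Real.exp_add]; congr 1; ring
    beta_reduce
    rw [this]; ring
  have hM2int : Integrable (fun t => M t ^ 2) ν := by
    refine (hF2.integral_prod_right).congr (ae_of_all _ fun t => ?_)
    exact (hMsq t).symm
  have hM2 : ∫ t, M t ^ 2 ∂ν ≤ ∫ x, ∫ y, ρ x * ρ y / ‖x - y‖ := by
    have h1 : ∫ t, M t ^ 2 ∂ν = ∫ z : R3 × R3, (∫ t, (ρ z.1 * ρ z.2) *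
        Real.exp (-(t * (‖z.1 - a‖ + ‖z.2 - a‖))) ∂ν) ∂(μ.prod μ) := by
      have := integral_integral_swap (f := fun (z : R3 × R3) (t : ℝ) =>
        (ρ z.1 * ρ z.2) * Real.exp (-(t * (‖z.1 - a‖ + ‖z.2 - a‖)))) (μ := μ.prod μ) (ν := ν) hF2
      rw [this]
      exact integral_congr_ae (ae_of_all _ fun t => hMsq t)
    have h2 : ∫ x, ∫ y, ρ x * ρ y / ‖x - y‖ = ∫ z : R3 × R3, ρ z.1 * ρ z.2 / ‖z.1 - z.2‖
        ∂(μ.prod μ) := (integral_prod _ hH).symm
    rw [h1, h2]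
    refine integral_mono_ae hF2.integral_prod_left hH ?_
    filter_upwards [diag_null] with z hz
    have hd : 0 < ‖z.1 - z.2‖ := norm_pos_iff.mpr (sub_ne_zero.mpr hz)
    have hs : ‖z.1 - z.2‖ ≤ ‖z.1 - a‖ + ‖z.2 - a‖ := by
      have : z.1 - z.2 = (z.1 - a) - (z.2 - a) := by abel
      rw [this]; exact norm_sub_le _ _
    show ∫ t, (ρ z.1 * ρ z.2) * Real.exp (-(t * (‖z.1 - a‖ + ‖z.2 - a‖))) ∂ν ≤ _
    rw [integral_const_mul, div_eq_mul_one_div]
    refine mul_le_mul_of_nonneg_left ?_ (mul_nonneg (h0 _) (h0 _))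
    refine (int_exp_le hT (hd.trans_le hs)).trans ?_
    gcongr
  refine ⟨hI1, ?_⟩
  rw [hM1, ← integral_const_mul]
  calc ∫ t, Z * M t ∂ν ≤ ∫ t, (1 / 2 * M t ^ 2 + Z ^ 2 / 2) ∂ν := by
        refine integral_mono (hMint.const_mul Z) ((hM2int.const_mul _).add (integrable_const _))
          fun t => ?_
        show Z * M t ≤ 1 / 2 * M t ^ 2 + Z ^ 2 / 2
        nlinarith [sq_nonneg (Z - M t)]
    _ = 1 / 2 * (∫ t, M t ^ 2 ∂ν) + Z ^ 2 * T / 2 := by
        rw [integral_add (hM2int.const_mul _) (integrable_const _), integral_const_mul,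
          integral_const, hνT, smul_eq_mul]
        ring
    _ ≤ _ := by
        have := mul_le_mul_of_nonneg_left hM2 (by norm_num : (0:ℝ) ≤ 1 / 2)
        linarith

/-- Attraction of one nucleus with weight `Z`. -/
lemma attraction {p : ℝ} (hp : 4 / 3 < p) {ρ : R3 → ℝ} {g : R3 → R3} (h : Admissible p ρ g)
    (hH : Integrable (fun z : R3 × R3 => ρ z.1 * ρ z.2 / ‖z.1 - z.2‖)
      ((volume : Measure R3).prod volume))
    (a : R3) (hI : Integrable (fun x => ρ x / ‖x - a‖)) {T Z : ℝ} (hT : 0 < T) (hZ : 0 ≤ Z) :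
    Z * ∫ x, ρ x / ‖x - a‖ ≤ 1 / 2 * (∫ x, ∫ y, ρ x * ρ y / ‖x - y‖) + Z ^ 2 * T / 2
      + 4 * Z / T * ∫ x, ‖g x‖ ^ 2 := by
  obtain ⟨hI2, hle2⟩ := TfdwA.hardy2 hp h a
  obtain ⟨hI3, hle3⟩ := far h.nonneg h.integrable hH a hT hZ
  have hne : ∀ᵐ x : R3, x ≠ a := by
    rw [ae_iff]
    simp
  have h1 : ∫ x, ρ x / ‖x - a‖ ≤ (∫ x, ρ x * ∫ t in Ioc (0:ℝ) T, Real.exp (-(t * ‖x - a‖)))
      + 1 / T * ∫ x, ρ x / ‖x - a‖ ^ 2 := by
    rw [← integral_const_mul, ← integral_add hI3 (hI2.const_mul _)]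
    refine integral_mono_ae hI (hI3.add (hI2.const_mul _)) ?_
    filter_upwards [hne] with x hx
    have hxa' : 0 < ‖x - a‖ := norm_pos_iff.mpr (sub_ne_zero.mpr hx)
    have h2 := int_exp_ge hT hxa'
    have h3 := mul_le_mul_of_nonneg_left h2 (h.nonneg x)
    show ρ x / ‖x - a‖ ≤ ρ x * (∫ t in Ioc (0:ℝ) T, Real.exp (-(t * ‖x - a‖)))
      + 1 / T * (ρ x / ‖x - a‖ ^ 2)
    have h4 : ρ x * (1 / ‖x - a‖ - 1 / (T * ‖x - a‖ ^ 2))
        = ρ x / ‖x - a‖ - 1 / T * (ρ x / ‖x - a‖ ^ 2) := by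
      field_simp
    rw [h4] at h3
    linarith
  have h5 := mul_le_mul_of_nonneg_left h1 hZ
  have h6 : Z * (1 / T * ∫ x, ρ x / ‖x - a‖ ^ 2) ≤ Z * (1 / T * (4 * ∫ x, ‖g x‖ ^ 2)) := by
    gcongr
  have h7 : Z * (1 / T * (4 * ∫ x, ‖g x‖ ^ 2)) = 4 * Z / T * ∫ x, ‖g x‖ ^ 2 := by ring
  rw [mul_add] at h5
  linarith

/-- The Coulomb self-energy integrand is integrable on the product space. -/
lemma coulomb_integrable {ρ : R3 → ℝ} (h0 : ∀ x, 0 ≤ ρ x) (hi : Integrable ρ) {B : ℝ}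
    (hB : ∀ a, Integrable (fun x => ρ x / ‖x - a‖) ∧ ∫ x, ρ x / ‖x - a‖ ≤ B) :
    Integrable (fun z : R3 × R3 => ρ z.1 * ρ z.2 / ‖z.1 - z.2‖)
      ((volume : Measure R3).prod volume) := by
  have hρρ : Integrable (fun z : R3 × R3 => ρ z.1 * ρ z.2)
    ((volume : Measure R3).prod volume) := hi.mul_prod hi
  have hm : AEStronglyMeasurable (fun z : R3 × R3 => ρ z.1 * ρ z.2 / ‖z.1 - z.2‖)
      ((volume : Measure R3).prod volume) := by
    have h1 : Measurable (fun z : R3 × R3 => ‖z.1 - z.2‖⁻¹) :=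
      (measurable_fst.sub measurable_snd).norm.inv
    exact hρρ.aestronglyMeasurable.mul h1.aestronglyMeasurable
  rw [integrable_prod_iff hm]
  have hcongr : ∀ x y : R3, ρ x * ρ y / ‖x - y‖ = ρ x * (ρ y / ‖y - x‖) := by
    intro x y
    rw [norm_sub_rev]; ring
  constructor
  · refine ae_of_all _ fun x => ?_
    refine ((hB x).1.const_mul (ρ x)).congr (ae_of_all _ fun y => ?_)
    exact (hcongr x y).symm
  · refine (hi.mul_const B).mono' hm.norm.integral_prod_right' (ae_of_all _ fun x => ?_)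
    have hnn : ∀ y, 0 ≤ ρ x * ρ y / ‖x - y‖ := fun y =>
      div_nonneg (mul_nonneg (h0 x) (h0 y)) (norm_nonneg _)
    rw [Real.norm_of_nonneg (integral_nonneg fun y => norm_nonneg _)]
    have h2 : ∫ y, ‖ρ x * ρ y / ‖x - y‖‖ = ρ x * ∫ y, ρ y / ‖y - x‖ := by
      rw [← integral_const_mul]
      refine integral_congr_ae (ae_of_all _ fun y => ?_)
      show ‖ρ x * ρ y / ‖x - y‖‖ = _
      rw [Real.norm_of_nonneg (hnn y), hcongr]
    show ∫ y, ‖ρ x * ρ y / ‖x - y‖‖ ≤ ρ x * B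
    rw [h2]
    exact mul_le_mul_of_nonneg_left (hB x).2 (h0 x)

end Pool.Agent.H7R3.TfdwB
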